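import Pool.Agent.H18.B9b46bProof

set_option autoImplicit false

namespace Pool.Agent.Results.MP_b9b46b_al.LocalGlobal

open Pool.Agent.H18.B9b46b

universe u

/-- For every ring `A` in the class `𝒞`, the local-global property is equivalent to
condition (b). -/
theorem result (A : Type u) [CommRing A] [Lattice A] (hA : InClassC A) :
    LocalGlobalProperty A ↔ QuadraticUnitSubstitution A :=
  ⟨a_imp_b hA, b_imp_a hA⟩

end Pool.Agent.Results.MP_b9b46b_al.LocalGlobal
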